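import Pool.Agent.Lib.MP_05d620_an.Defs

/-!
# Concrete models for MP_05d620_an

Lipschitz functions vanishing at the base point, Lipschitz-free spaces, and the completed
projective tensor product of two real normed spaces.
-/

noncomputable section

namespace Pool.Agent.Lib.MP_05d620_an

open scoped TensorProduct

/-- The real vector space of real-valued Lipschitz functions on `M` vanishing at `o`. -/
def lip0Submodule (M : Type*) [MetricSpace M] (o : M) : Submodule ℝ (M → ℝ) where
  carrier := {f | f o = 0 ∧ ∃ K : ℝ, 0 ≤ K ∧ ∀ x y, |f x - f y| ≤ K * dist x y}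
  add_mem' := by
    rintro f g ⟨hf, K, hK, hfK⟩ ⟨hg, L, hL, hgL⟩
    refine ⟨by simp [hf, hg], K + L, by positivity, fun x y => ?_⟩
    have h : (f + g) x - (f + g) y = (f x - f y) + (g x - g y) := by
      simp only [Pi.add_apply]; ring
    rw [h, add_mul]
    exact (abs_add_le _ _).trans (add_le_add (hfK x y) (hgL x y))
  zero_mem' := ⟨rfl, 0, le_rfl, fun x y => by simp⟩
  smul_mem' := by
    rintro c f ⟨hf, K, hK, hfK⟩
    refine ⟨by simp [hf], |c| * K, by positivity, fun x y => ?_⟩
    have h : (c • f) x - (c • f) y = c * (f x - f y) := by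
      simp only [Pi.smul_apply, smul_eq_mul]; ring
    rw [h, abs_mul, mul_assoc]
    exact mul_le_mul_of_nonneg_left (hfK x y) (abs_nonneg c)

/-- `Lip₀(M)`: real-valued Lipschitz functions on the pointed metric space `(M, o)` vanishing
at the base point `o`. -/
def Lip0 (M : Type*) [MetricSpace M] (o : M) : Type _ := lip0Submodule M o

namespace Lip0

variable {M : Type*} [MetricSpace M] {o : M}

instance : AddCommGroup (Lip0 M o) := inferInstanceAs (AddCommGroup (lip0Submodule M o))

instance : Module ℝ (Lip0 M o) := inferInstanceAs (Module ℝ (lip0Submodule M o))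

instance : CoeFun (Lip0 M o) (fun _ => M → ℝ) := ⟨fun f => f.1⟩

/-- The best Lipschitz constant of `f`. -/
def lipConst (f : Lip0 M o) : ℝ := sInf {K : ℝ | 0 ≤ K ∧ ∀ x y, |f x - f y| ≤ K * dist x y}

theorem set_nonempty (f : Lip0 M o) :
    {K : ℝ | 0 ≤ K ∧ ∀ x y, |f x - f y| ≤ K * dist x y}.Nonempty := by
  obtain ⟨K, hK, h⟩ := f.2.2
  exact ⟨K, hK, h⟩

theorem set_bddBelow (f : Lip0 M o) :
    BddBelow {K : ℝ | 0 ≤ K ∧ ∀ x y, |f x - f y| ≤ K * dist x y} :=
  ⟨0, fun _ hK => hK.1⟩

theorem lipConst_nonneg (f : Lip0 M o) : 0 ≤ lipConst f :=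
  le_csInf (set_nonempty f) fun _ hK => hK.1

theorem lipConst_le {f : Lip0 M o} {K : ℝ} (hK : 0 ≤ K)
    (h : ∀ x y, |f x - f y| ≤ K * dist x y) : lipConst f ≤ K :=
  csInf_le (set_bddBelow f) ⟨hK, h⟩

theorem abs_sub_le (f : Lip0 M o) (x y : M) : |f x - f y| ≤ lipConst f * dist x y := by
  rcases eq_or_ne x y with rfl | hxy
  · simp
  · have hd : 0 < dist x y := dist_pos.mpr hxy
    rw [← div_le_iff₀ hd]
    refine le_csInf (set_nonempty f) fun K hK => ?_
    rw [div_le_iff₀ hd]
    exact hK.2 x y

theorem map_base (f : Lip0 M o) : f o = 0 := f.2.1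

@[simp] theorem add_apply (f g : Lip0 M o) (x : M) : (f + g) x = f x + g x := rfl
@[simp] theorem smul_apply (c : ℝ) (f : Lip0 M o) (x : M) : (c • f) x = c * f x := rfl
@[simp] theorem zero_apply (x : M) : (0 : Lip0 M o) x = 0 := rfl
@[simp] theorem neg_apply (f : Lip0 M o) (x : M) : (-f) x = - f x := rfl

theorem ext' {f g : Lip0 M o} (h : ∀ x, f x = g x) : f = g := Subtype.ext (funext h)

instance : Norm (Lip0 M o) := ⟨lipConst⟩

theorem norm_def (f : Lip0 M o) : ‖f‖ = lipConst f := rfl

/-- `Lip₀(M)` with the best Lipschitz constant as norm. -/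
instance : NormedAddCommGroup (Lip0 M o) :=
  AddGroupNorm.toNormedAddCommGroup
    { toFun := lipConst
      map_zero' := le_antisymm (lipConst_le le_rfl fun x y => by simp) (lipConst_nonneg _)
      add_le' := fun f g => by
        refine lipConst_le (add_nonneg (lipConst_nonneg f) (lipConst_nonneg g)) fun x y => ?_
        have h : (f + g) x - (f + g) y = (f x - f y) + (g x - g y) := by
          simp only [add_apply]; ring
        rw [h, add_mul]
        exact (abs_add_le _ _).trans (add_le_add (abs_sub_le f x y) (abs_sub_le g x y))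
      neg' := fun f => by
        have key : ∀ g : Lip0 M o, lipConst (-g) ≤ lipConst g := fun g => by
          refine lipConst_le (lipConst_nonneg g) fun x y => ?_
          have h : (-g) x - (-g) y = -(g x - g y) := by simp only [neg_apply]; ring
          rw [h, abs_neg]
          exact abs_sub_le g x y
        refine le_antisymm (key f) ?_
        have h2 := key (-f)
        rwa [neg_neg] at h2
      eq_zero_of_map_eq_zero' := fun f hf => by
        refine ext' fun x => ?_
        have h := abs_sub_le f x o
        have hf' : lipConst f = 0 := hf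
        rw [hf', zero_mul, map_base, sub_zero] at h
        simpa using abs_nonpos_iff.mp h }

instance : NormedSpace ℝ (Lip0 M o) where
  norm_smul_le c f := by
    show lipConst (c • f) ≤ ‖c‖ * lipConst f
    refine lipConst_le (mul_nonneg (norm_nonneg c) (lipConst_nonneg f)) fun x y => ?_
    have h : (c • f) x - (c • f) y = c * (f x - f y) := by
      simp only [smul_apply]; ring
    rw [h, abs_mul, mul_assoc, Real.norm_eq_abs]
    exact mul_le_mul_of_nonneg_left (abs_sub_le f x y) (abs_nonneg c)

end Lip0

/-- Evaluation at the point `x`, as an element of the dual of `Lip₀(M)`. -/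
def delta {M : Type*} [MetricSpace M] (o : M) (x : M) : StrongDual ℝ (Lip0 M o) :=
  LinearMap.mkContinuous
    { toFun := fun f => f x
      map_add' := fun _ _ => rfl
      map_smul' := fun _ _ => rfl }
    (dist x o) (fun f => by
      have h := Lip0.abs_sub_le f x o
      rw [Lip0.map_base, sub_zero, mul_comm] at h
      exact h)

/-- The Lipschitz-free space of the pointed metric space `(M, o)`: the closed linear span of
the evaluations in the dual of `Lip₀(M)`. -/
def LipFree (M : Type*) [MetricSpace M] (o : M) : Type _ :=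
  ((Submodule.span ℝ (Set.range (delta o))).topologicalClosure :
    Submodule ℝ (StrongDual ℝ (Lip0 M o)))

instance (M : Type*) [MetricSpace M] (o : M) : NormedAddCommGroup (LipFree M o) :=
  inferInstanceAs (NormedAddCommGroup ((Submodule.span ℝ (Set.range (delta o))).topologicalClosure :
    Submodule ℝ (StrongDual ℝ (Lip0 M o))))

instance (M : Type*) [MetricSpace M] (o : M) : NormedSpace ℝ (LipFree M o) :=
  inferInstanceAs (NormedSpace ℝ ((Submodule.span ℝ (Set.range (delta o))).topologicalClosure :
    Submodule ℝ (StrongDual ℝ (Lip0 M o))))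

/-! ### The projective tensor product -/

/-- The algebraic tensor product of two real normed spaces, to be given the projective norm. -/
def ProjTensor (E X : Type*) [NormedAddCommGroup E] [NormedSpace ℝ E]
    [NormedAddCommGroup X] [NormedSpace ℝ X] : Type _ := E ⊗[ℝ] X

namespace ProjTensor

variable {E X : Type*} [NormedAddCommGroup E] [NormedSpace ℝ E]
    [NormedAddCommGroup X] [NormedSpace ℝ X]

instance : AddCommGroup (ProjTensor E X) := inferInstanceAs (AddCommGroup (E ⊗[ℝ] X))

instance : Module ℝ (ProjTensor E X) := inferInstanceAs (Module ℝ (E ⊗[ℝ] X))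

/-- The elementary tensor `a ⊗ x`. -/
def tmul (a : E) (x : X) : ProjTensor E X := (a ⊗ₜ[ℝ] x : E ⊗[ℝ] X)

/-- The values `∑ ‖a i‖ ‖x i‖` over all finite representations `u = ∑ a i ⊗ x i`. -/
def values (u : ProjTensor E X) : Set ℝ :=
  {r | ∃ (n : ℕ) (a : Fin n → E) (x : Fin n → X),
    u = ∑ i, tmul (a i) (x i) ∧ r = ∑ i, ‖a i‖ * ‖x i‖}

/-- The projective norm of `u`: the infimum of `∑ ‖a i‖ ‖x i‖` over all finite representations
`u = ∑ a i ⊗ x i`. -/
def projNorm (u : ProjTensor E X) : ℝ := sInf (values u)

theorem values_nonneg {u : ProjTensor E X} {r : ℝ} (hr : r ∈ values u) : 0 ≤ r := by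
  obtain ⟨n, a, x, -, rfl⟩ := hr
  exact Finset.sum_nonneg fun i _ => mul_nonneg (norm_nonneg _) (norm_nonneg _)

theorem values_bddBelow (u : ProjTensor E X) : BddBelow (values u) :=
  ⟨0, fun _ hr => values_nonneg hr⟩

theorem add_mem_values {u v : ProjTensor E X} {r s : ℝ} (hr : r ∈ values u) (hs : s ∈ values v) :
    r + s ∈ values (u + v) := by
  obtain ⟨n, a, x, rfl, rfl⟩ := hr
  obtain ⟨m, b, y, rfl, rfl⟩ := hs
  refine ⟨n + m, Fin.append a b, Fin.append x y, ?_, ?_⟩
  · rw [Fin.sum_univ_add]
    simp only [Fin.append_left, Fin.append_right]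
  · rw [Fin.sum_univ_add]
    simp only [Fin.append_left, Fin.append_right]

theorem smul_mem_values {u : ProjTensor E X} {r : ℝ} (c : ℝ) (hr : r ∈ values u) :
    |c| * r ∈ values (c • u) := by
  obtain ⟨n, a, x, rfl, rfl⟩ := hr
  refine ⟨n, fun i => c • a i, x, ?_, ?_⟩
  · rw [Finset.smul_sum]
    refine Finset.sum_congr rfl fun i _ => ?_
    exact (TensorProduct.smul_tmul' c (a i) (x i))
  · rw [Finset.mul_sum]
    refine Finset.sum_congr rfl fun i _ => ?_
    rw [norm_smul, Real.norm_eq_abs, mul_assoc]

theorem zero_mem_values : (0 : ℝ) ∈ values (0 : ProjTensor E X) :=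
  ⟨0, fun _ => 0, fun _ => 0, by simp, by simp⟩

theorem tmul_mem_values (a : E) (x : X) : ‖a‖ * ‖x‖ ∈ values (tmul a x) :=
  ⟨1, fun _ => a, fun _ => x, by simp, by simp⟩

theorem values_nonempty (u : ProjTensor E X) : (values u).Nonempty := by
  refine TensorProduct.induction_on (motive := fun u : E ⊗[ℝ] X =>
    (values (u : ProjTensor E X)).Nonempty) u ?_ ?_ ?_
  · exact ⟨0, zero_mem_values⟩
  · intro a x
    exact ⟨_, tmul_mem_values a x⟩
  · rintro u v ⟨r, hr⟩ ⟨s, hs⟩
    exact ⟨r + s, add_mem_values hr hs⟩

theorem projNorm_nonneg (u : ProjTensor E X) : 0 ≤ projNorm u :=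
  le_csInf (values_nonempty u) fun _ hr => values_nonneg hr

theorem projNorm_le {u : ProjTensor E X} {r : ℝ} (hr : r ∈ values u) : projNorm u ≤ r :=
  csInf_le (values_bddBelow u) hr

theorem projNorm_zero : projNorm (0 : ProjTensor E X) = 0 :=
  le_antisymm (projNorm_le zero_mem_values) (projNorm_nonneg _)

theorem projNorm_add_le (u v : ProjTensor E X) : projNorm (u + v) ≤ projNorm u + projNorm v := by
  refine le_of_forall_pos_le_add fun ε hε => ?_
  obtain ⟨r, hr, hr'⟩ := exists_lt_of_csInf_lt (values_nonempty u)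
    (show sInf (values u) < projNorm u + ε / 2 by unfold projNorm; linarith)
  obtain ⟨s, hs, hs'⟩ := exists_lt_of_csInf_lt (values_nonempty v)
    (show sInf (values v) < projNorm v + ε / 2 by unfold projNorm; linarith)
  have := projNorm_le (add_mem_values hr hs)
  linarith

theorem projNorm_smul_le (c : ℝ) (u : ProjTensor E X) : projNorm (c • u) ≤ |c| * projNorm u := by
  rcases eq_or_ne c 0 with rfl | hc
  · rw [zero_smul, projNorm_zero, abs_zero, zero_mul]
  · have hc' : 0 < |c| := abs_pos.mpr hc
    rw [← div_le_iff₀' hc']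
    refine le_csInf (values_nonempty u) fun r hr => ?_
    rw [div_le_iff₀' hc']
    exact projNorm_le (smul_mem_values c hr)

theorem projNorm_smul (c : ℝ) (u : ProjTensor E X) : projNorm (c • u) = |c| * projNorm u := by
  rcases eq_or_ne c 0 with rfl | hc
  · rw [zero_smul, projNorm_zero, abs_zero, zero_mul]
  · refine le_antisymm (projNorm_smul_le c u) ?_
    have h := projNorm_smul_le c⁻¹ (c • u)
    rw [smul_smul, inv_mul_cancel₀ hc, one_smul, abs_inv] at h
    rwa [← div_eq_inv_mul, le_div_iff₀' (abs_pos.mpr hc)] at h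

instance : Norm (ProjTensor E X) := ⟨projNorm⟩

theorem norm_def (u : ProjTensor E X) : ‖u‖ = projNorm u := rfl

/-- The algebraic tensor product with the projective norm. -/
instance : SeminormedAddCommGroup (ProjTensor E X) :=
  AddGroupSeminorm.toSeminormedAddCommGroup
    { toFun := projNorm
      map_zero' := projNorm_zero
      add_le' := projNorm_add_le
      neg' := fun u => by
        have h := projNorm_smul (-1) u
        rwa [neg_one_smul, abs_neg, abs_one, one_mul] at h }

instance : NormedSpace ℝ (ProjTensor E X) where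
  norm_smul_le c u := projNorm_smul_le c u

end ProjTensor

/-- The completed projective tensor product of two real Banach spaces. -/
abbrev ProjTensorProduct (E X : Type*) [NormedAddCommGroup E] [NormedSpace ℝ E]
    [NormedAddCommGroup X] [NormedSpace ℝ X] : Type _ :=
  UniformSpace.Completion (ProjTensor E X)

/-- The vector-valued Lipschitz-free space: the completed projective tensor product of the
Lipschitz-free space of `(M, o)` with `X`. -/
abbrev VectorLipFree (M : Type*) [MetricSpace M] (o : M)
    (X : Type*) [NormedAddCommGroup X] [NormedSpace ℝ X] : Type _ :=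
  ProjTensorProduct (LipFree M o) X

end Pool.Agent.Lib.MP_05d620_an
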