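import Mathlib

/-!
# Definitions for MP_05d620_an

Lipschitz-free spaces, completed projective tensor products and octahedral norms.
-/

namespace Pool.Agent.Lib.MP_05d620_an

open scoped TensorProduct

/-- `F` with the map `δ : M → F` is the Lipschitz-free space of the pointed metric space `(M, o)`:
`F` is a Banach space in which the vectors `δ x` span a dense subspace, and the norm of a finite
combination `∑ a p • δ p` is its norm as a functional on `Lip₀(M)`, that is the least upper bound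
of `∑ a p * f p` over all real `1`-Lipschitz functions `f` on `M` with `f o = 0`. -/
def IsLipschitzFree (M : Type) [MetricSpace M] (o : M) (F : Type) [NormedAddCommGroup F]
    [NormedSpace ℝ F] (δ : M → F) : Prop :=
  CompleteSpace F ∧ Dense (Submodule.span ℝ (Set.range δ) : Set F) ∧
    ∀ (s : Finset M) (a : M → ℝ),
      IsLUB {r : ℝ | ∃ f : M → ℝ, LipschitzWith 1 f ∧ f o = 0 ∧ r = ∑ p ∈ s, a p * f p}
        ‖∑ p ∈ s, a p • δ p‖

/-- `Z` with the linear map `T : E ⊗ X → Z` is the completed projective tensor product of the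
normed spaces `E` and `X`: `Z` is a Banach space, `T` has dense range, and the norm of `T u` is the
projective norm of `u`, the greatest lower bound of `∑ ‖a i‖ ‖x i‖` over all finite
representations `u = ∑ a i ⊗ x i`. -/
def IsProjectiveTensorProduct (E X : Type) [NormedAddCommGroup E] [NormedSpace ℝ E]
    [NormedAddCommGroup X] [NormedSpace ℝ X] (Z : Type) [NormedAddCommGroup Z] [NormedSpace ℝ Z]
    (T : E ⊗[ℝ] X →ₗ[ℝ] Z) : Prop :=
  CompleteSpace Z ∧ DenseRange T ∧
    ∀ u : E ⊗[ℝ] X,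
      IsGLB {r : ℝ | ∃ (n : ℕ) (a : Fin n → E) (x : Fin n → X),
        u = ∑ i, a i ⊗ₜ[ℝ] x i ∧ r = ∑ i, ‖a i‖ * ‖x i‖} ‖T u‖

/-- `Z` has an octahedral norm: for every finite-dimensional subspace `Y` and every `ε > 0` there
is a norm-one `z` with `‖y + c z‖ ≥ (1 - ε) (‖y‖ + |c|)` for all `y ∈ Y` and all scalars `c`. -/
def HasOctahedralNorm (Z : Type) [NormedAddCommGroup Z] [NormedSpace ℝ Z] : Prop :=
  ∀ Y : Submodule ℝ Z, FiniteDimensional ℝ Y → ∀ ε : ℝ, 0 < ε →
    ∃ z : Z, ‖z‖ = 1 ∧ ∀ y ∈ Y, ∀ c : ℝ, (1 - ε) * (‖y‖ + |c|) ≤ ‖y + c • z‖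

end Pool.Agent.Lib.MP_05d620_an
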