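import Pool.Agent.Lib.MP_05d620_an.Space

/-!
# The vector-valued Lipschitz-free space is not octahedral
-/

noncomputable section

namespace Pool.Agent.Lib.MP_05d620_an

open ProjTensor

variable {M : Type} [MetricSpace M] {o : M}
variable {X : Type} [NormedAddCommGroup X] [NormedSpace ℝ X]

/-- The (unnormalised) combination of molecules attached to a family of five vectors of `X`
and five points of `M`. -/
def nu (o : M) (n : Fin 5 → X) (p : Fin 5 → M) : VectorLipFree M o X :=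
  ∑ ij : Fin 5 × Fin 5, ct (deltaF o (p ij.2) - deltaF o (p ij.1)) (n ij.1)

theorem dist_le_one (hM : ∀ x y : M, x ≠ y → dist x y = 1) (x y : M) : dist x y ≤ 1 := by
  rcases eq_or_ne x y with rfl | h
  · simp
  · exact (hM x y h).le

theorem abs_apply_le (hM : ∀ x y : M, x ≠ y → dist x y = 1)
    (Φ : StrongDual ℝ (VectorLipFree M o X)) (hΦ : ‖Φ‖ ≤ 1) (q r : M) (y : X) (hy : ‖y‖ ≤ 1) :
    |Φ (ct (deltaF o q - deltaF o r) y)| ≤ 1 := by
  have h1 : |Φ (ct (deltaF o q - deltaF o r) y)| ≤ ‖Φ‖ * ‖ct (deltaF o q - deltaF o r) y‖ :=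
    Φ.le_opNorm _
  have h2 : ‖ct (deltaF o q - deltaF o r) y‖ ≤ 1 := by
    refine (norm_ct_le _ _).trans ?_
    have h3 : ‖deltaF o q - deltaF o r‖ ≤ 1 := (norm_deltaF_sub_le q r).trans (dist_le_one hM q r)
    calc ‖deltaF o q - deltaF o r‖ * ‖y‖ ≤ 1 * 1 := by gcongr
      _ = 1 := one_mul 1
  calc _ ≤ ‖Φ‖ * ‖ct (deltaF o q - deltaF o r) y‖ := h1
    _ ≤ 1 * 1 := by gcongr
    _ = 1 := one_mul 1

/-- The width bound. -/
theorem width_bound (hM : ∀ x y : M, x ≠ y → dist x y = 1)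
    (Φ : StrongDual ℝ (VectorLipFree M o X)) (hΦ : ‖Φ‖ ≤ 1)
    (n : Fin 5 → X) (hn : ∀ i, ‖n i‖ ≤ 1) (hsum : ∑ i, n i = 0) (p : Fin 5 → M)
    (a : Fin 5 → ℝ) (ha : ∀ l, |a l| ≤ 1) {β : ℝ} (hβ : 0 ≤ β) (q r : M) :
    |Φ (ct (deltaF o q - deltaF o r) (β • ∑ l, a l • n l))| ≤
      2 * β * (5 - Φ (nu o n p) / 5) := by
  set t : M → Fin 5 → ℝ := fun q l => Φ (ct (deltaF o q) (n l)) with ht
  have htsum : ∀ q, ∑ l, t q l = 0 := by
    intro q
    have : ∑ l, t q l = Φ (ctRight (deltaF o q) (∑ l, n l)) := by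
      rw [map_sum, map_sum]; rfl
    rw [this, hsum, map_zero, map_zero]
  have hdiff : ∀ q r l, |t q l - t r l| ≤ 1 := by
    intro q r l
    have := abs_apply_le hM Φ hΦ q r (n l) (hn l)
    rwa [ct_sub_left, map_sub] at this
  have hnu : Φ (nu o n p) = -5 * ∑ l, t (p l) l := by
    have h1 : Φ (nu o n p) = ∑ ij : Fin 5 × Fin 5, (t (p ij.2) ij.1 - t (p ij.1) ij.1) := by
      rw [nu, map_sum]
      refine Finset.sum_congr rfl fun ij _ => ?_
      rw [ct_sub_left, map_sub]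
    have h0 := htsum (p 0)
    have h1' := htsum (p 1)
    have h2' := htsum (p 2)
    have h3' := htsum (p 3)
    have h4' := htsum (p 4)
    rw [h1, Fintype.sum_prod_type]
    simp only [Fin.sum_univ_five] at h0 h1' h2' h3' h4' ⊢
    linarith
  set σ : ℝ := 5 - Φ (nu o n p) / 5 with hσ
  have hσ' : σ = ∑ l, (1 + t (p l) l) := by
    rw [hσ, hnu, Finset.sum_add_distrib]
    simp
    ring
  have hval : Φ (ct (deltaF o q - deltaF o r) (β • ∑ l, a l • n l)) =
      β * ∑ l, a l * (t q l - t r l) := by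
    have e : ct (deltaF o q - deltaF o r) (β • ∑ l, a l • n l) =
        ctRight (deltaF o q - deltaF o r) (β • ∑ l, a l • n l) := rfl
    rw [e, map_smul, map_sum, map_smul, map_sum, smul_eq_mul]
    congr 1
    refine Finset.sum_congr rfl fun l _ => ?_
    rw [map_smul, map_smul, smul_eq_mul]
    congr 1
    show Φ (ct (deltaF o q - deltaF o r) (n l)) = _
    rw [ct_sub_left, map_sub]
  rw [hval, abs_mul, abs_of_nonneg hβ]
  have hmain : |∑ l, a l * (t q l - t r l)| ≤ 2 * σ := by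
    calc |∑ l, a l * (t q l - t r l)| ≤ ∑ l, |a l * (t q l - t r l)| :=
          Finset.abs_sum_le_sum_abs _ _
      _ ≤ ∑ l, ((1 + t (p l) l - t q l) + (1 + t (p l) l - t r l)) := by
          refine Finset.sum_le_sum fun l _ => ?_
          rw [abs_mul]
          have h1 : 0 ≤ 1 + t (p l) l - t q l := by
            have := (abs_le.mp (hdiff q (p l) l)).2
            linarith
          have h2 : 0 ≤ 1 + t (p l) l - t r l := by
            have := (abs_le.mp (hdiff r (p l) l)).2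
            linarith
          have h3 : |t q l - t r l| ≤ (1 + t (p l) l - t q l) + (1 + t (p l) l - t r l) := by
            rw [abs_le]
            constructor <;> linarith
          calc |a l| * |t q l - t r l| ≤ 1 * |t q l - t r l| := by
                gcongr; exact ha l
            _ ≤ _ := by rw [one_mul]; exact h3
      _ = 2 * σ := by
          have := htsum q
          have := htsum r
          rw [hσ']
          simp only [Fin.sum_univ_five] at *
          linarith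
  calc β * |∑ l, a l * (t q l - t r l)| ≤ β * (2 * σ) := by gcongr
    _ = 2 * β * σ := by ring

/-- The number of off-diagonal pairs. -/
theorem sum_offdiag : ∑ ij : Fin 5 × Fin 5, (if ij.1 = ij.2 then (0 : ℝ) else 1) = 20 := by
  rw [Fintype.sum_prod_type]
  simp only [Fin.sum_univ_five]
  norm_num [Fin.ext_iff]

section lift

variable {V : Type} [NormedAddCommGroup V] [NormedSpace ℝ V]

/-- The linear map `X → Lip₀(M)` attached to a map `w : M → V`, where `X` is the dual of `V`. -/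
def liftMap (w : M → V) (hw0 : w o = 0) (hw : ∀ x y, ‖w x - w y‖ ≤ dist x y) :
    StrongDual ℝ V →ₗ[ℝ] Lip0 M o where
  toFun x := ⟨fun q => x (w q), by show x (w o) = 0; rw [hw0, map_zero], ‖x‖, norm_nonneg x,
    fun q r => by
      rw [← map_sub]
      exact (x.le_opNorm _).trans (by gcongr; exact hw q r)⟩
  map_add' x y := rfl
  map_smul' c x := rfl

theorem liftMap_apply (w : M → V) (hw0 : w o = 0) (hw : ∀ x y, ‖w x - w y‖ ≤ dist x y)
    (x : StrongDual ℝ V) (q : M) : liftMap w hw0 hw x q = x (w q) := rfl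

theorem norm_liftMap_le (w : M → V) (hw0 : w o = 0) (hw : ∀ x y, ‖w x - w y‖ ≤ dist x y)
    (x : StrongDual ℝ V) : ‖liftMap w hw0 hw x‖ ≤ ‖x‖ :=
  Lip0.norm_le (norm_nonneg x) fun q r => by
    rw [liftMap_apply, liftMap_apply, ← map_sub]
    exact (x.le_opNorm _).trans (by gcongr; exact hw q r)

omit [NormedSpace ℝ V] in
/-- Extension of a five-point map. -/
theorem exists_extend (hM : ∀ x y : M, x ≠ y → dist x y = 1)
    (v : Fin 5 → V) (hv0 : v 0 = 0) (hv : ∀ i j, ‖v i - v j‖ ≤ 1)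
    (p : Fin 5 → M) (hp : Function.Injective p) (hp0 : p 0 = o) :
    ∃ w : M → V, (∀ j, w (p j) = v j) ∧ w o = 0 ∧ ∀ x y, ‖w x - w y‖ ≤ dist x y := by
  classical
  have hex : ∀ q : M, ∃ j, (∀ i, p i = q → i = j) ∧ ((¬ ∃ i, p i = q) → j = 0) := by
    intro q
    by_cases h : ∃ i, p i = q
    · obtain ⟨i, rfl⟩ := h
      exact ⟨i, fun i' h' => hp h', fun h' => absurd ⟨i, rfl⟩ h'⟩
    · exact ⟨0, fun i hi => absurd ⟨i, hi⟩ h, fun _ => rfl⟩
  choose J hJ hJ0 using hex
  have hJp : ∀ j, J (p j) = j := fun j => (hJ (p j) j rfl).symm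
  refine ⟨fun q => v (J q), fun j => congrArg v (hJp j), ?_, fun x y => ?_⟩
  · show v (J o) = 0
    rw [← hp0, hJp, hv0]
  · rcases eq_or_ne x y with rfl | hxy
    · simp
    · rw [hM x y hxy]
      exact hv _ _

/-- The lower bound for the norm of `nu`. -/
theorem twenty_le_norm_nu (hM : ∀ x y : M, x ≠ y → dist x y = 1)
    (n : Fin 5 → StrongDual ℝ V) (v : Fin 5 → V) (hv0 : v 0 = 0) (hv : ∀ i j, ‖v i - v j‖ ≤ 1)
    (hnv : ∀ i j, n i (v j) - n i (v i) = if i = j then 0 else 1)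
    (p : Fin 5 → M) (hp : Function.Injective p) (hp0 : p 0 = o) :
    20 ≤ ‖nu o n p‖ := by
  obtain ⟨w, hwp, hw0, hwl⟩ := exists_extend hM v hv0 hv p hp hp0
  have key := le_norm_of_linear (liftMap w hw0 hwl) (norm_liftMap_le w hw0 hwl)
    (Finset.univ : Finset (Fin 5 × Fin 5))
    (fun ij => deltaF o (p ij.2) - deltaF o (p ij.1)) (fun ij => n ij.1)
  have hval : ∀ ij : Fin 5 × Fin 5, (deltaF o (p ij.2) - deltaF o (p ij.1)).toDual
      (liftMap w hw0 hwl (n ij.1)) = if ij.1 = ij.2 then 0 else 1 := by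
    intro ij
    rw [LipFree.toDual_sub]
    show liftMap w hw0 hwl (n ij.1) (p ij.2) - liftMap w hw0 hwl (n ij.1) (p ij.1) = _
    rw [liftMap_apply, liftMap_apply, hwp, hwp, hnv]
  rw [Finset.sum_congr rfl (fun ij _ => hval ij), sum_offdiag] at key
  exact key

end lift

/-- The upper bound for the values of functionals at `nu`. -/
theorem apply_nu_le (hM : ∀ x y : M, x ≠ y → dist x y = 1)
    (Φ : StrongDual ℝ (VectorLipFree M o X)) (hΦ : ‖Φ‖ ≤ 1)
    (n : Fin 5 → X) (hn : ∀ i, ‖n i‖ ≤ 1) (p : Fin 5 → M) : Φ (nu o n p) ≤ 20 := by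
  have hterm : ∀ ij : Fin 5 × Fin 5,
      Φ (ct (deltaF o (p ij.2) - deltaF o (p ij.1)) (n ij.1)) ≤
        if ij.1 = ij.2 then 0 else 1 := by
    intro ij
    split_ifs with h
    · rw [h, sub_self, ct_zero_left, map_zero]
    · exact (le_abs_self _).trans (abs_apply_le hM Φ hΦ _ _ _ (hn _))
  rw [nu, map_sum]
  exact (Finset.sum_le_sum fun ij _ => hterm ij).trans (le_of_eq sum_offdiag)

/-- The estimate for the norm of the sum of two functionals, in abstract form: `X` is any normed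
space with two families of vectors that control the norm. -/
theorem norm_add_le_of_families (hM : ∀ x y : M, x ≠ y → dist x y = 1)
    (n m : Fin 5 → X) (hn : ∀ i, ‖n i‖ ≤ 1) (hm : ∀ i, ‖m i‖ ≤ 1)
    (hns : ∑ i, n i = 0) (hms : ∑ i, m i = 0)
    (q : Fin 5 → Fin 5 → ℝ) (hq : ∀ k l, |q k l| ≤ 1)
    (hnm : ∀ k, n k = (9 / 20 : ℝ) • ∑ l, q k l • m l)
    (hmn : ∀ k, m k = (4 / 9 : ℝ) • ∑ l, q k l • n l)
    (hcoord : ∀ (G : X →ₗ[ℝ] ℝ) (K : ℝ), (∀ k, |G (n k)| ≤ K) → (∀ k, |G (m k)| ≤ K) →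
      ∀ x, |G x| ≤ K * ‖x‖)
    (p : Fin 5 → M)
    (Φ₁ Φ₂ : StrongDual ℝ (VectorLipFree M o X)) (hΦ₁ : ‖Φ₁‖ ≤ 1) (hΦ₂ : ‖Φ₂‖ ≤ 1)
    {a : ℝ} (ha1 : a ≤ Φ₁ (nu o n p)) (ha2 : a ≤ Φ₂ (nu o m p)) (ha : a ≤ 20) :
    ‖Φ₁ + Φ₂‖ ≤ 1 + 9 / 10 * (5 - a / 5) := by
  have hK0 : 0 ≤ 1 + 9 / 10 * (5 - a / 5) := by linarith
  refine norm_functional_le_of_lip (Φ₁ + Φ₂) hK0 fun x y z => ?_
  rcases eq_or_ne x y with rfl | hxy
  · simp [ct_zero_left]
  · rw [hM x y hxy, mul_one]
    refine hcoord ((Φ₁ + Φ₂ : StrongDual ℝ (VectorLipFree M o X)).toLinearMap ∘ₗ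
      ctRight (deltaF o x - deltaF o y)) _ (fun k => ?_) (fun k => ?_) z
    · show |Φ₁ (ct (deltaF o x - deltaF o y) (n k)) +
        Φ₂ (ct (deltaF o x - deltaF o y) (n k))| ≤ _
      have h1 := abs_apply_le hM Φ₁ hΦ₁ x y (n k) (hn k)
      have h2 := width_bound hM Φ₂ hΦ₂ m hm hms p (fun l => q k l)
        (fun l => hq k l) (by norm_num : (0 : ℝ) ≤ 9 / 20) x y
      rw [← hnm k] at h2
      refine (abs_add_le _ _).trans ((add_le_add h1 h2).trans ?_)
      linarith
    · show |Φ₁ (ct (deltaF o x - deltaF o y) (m k)) +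
        Φ₂ (ct (deltaF o x - deltaF o y) (m k))| ≤ _
      have h1 := abs_apply_le hM Φ₂ hΦ₂ x y (m k) (hm k)
      have h2 := width_bound hM Φ₁ hΦ₁ n hn hns p (fun l => q k l)
        (fun l => hq k l) (by norm_num : (0 : ℝ) ≤ 4 / 9) x y
      rw [← hmn k] at h2
      rw [add_comm]
      refine (abs_add_le _ _).trans ((add_le_add h1 h2).trans ?_)
      linarith

/-- Failure of octahedrality, abstract form. -/
theorem not_octahedral_of_families (hM : ∀ x y : M, x ≠ y → dist x y = 1)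
    (n m : Fin 5 → X) (hn : ∀ i, ‖n i‖ ≤ 1) (hm : ∀ i, ‖m i‖ ≤ 1)
    (hns : ∑ i, n i = 0) (hms : ∑ i, m i = 0)
    (q : Fin 5 → Fin 5 → ℝ) (hq : ∀ k l, |q k l| ≤ 1)
    (hnm : ∀ k, n k = (9 / 20 : ℝ) • ∑ l, q k l • m l)
    (hmn : ∀ k, m k = (4 / 9 : ℝ) • ∑ l, q k l • n l)
    (hcoord : ∀ (G : X →ₗ[ℝ] ℝ) (K : ℝ), (∀ k, |G (n k)| ≤ K) → (∀ k, |G (m k)| ≤ K) →
      ∀ x, |G x| ≤ K * ‖x‖)
    (p : Fin 5 → M) (hn20 : 20 ≤ ‖nu o n p‖) (hm20 : 20 ≤ ‖nu o m p‖) :
    ¬ HasOctahedralNorm (VectorLipFree M o X) := by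
  intro hoct
  set ν₁ := nu o n p with hν₁
  set ν₂ := nu o m p with hν₂
  obtain ⟨z, hz, hzY⟩ := hoct (Submodule.span ℝ {ν₁, ν₂})
    (FiniteDimensional.span_of_finite ℝ (Set.toFinite _)) (1 / 200) (by norm_num)
  have hz1 := hzY ν₁ (Submodule.subset_span (by simp)) 20
  have hz2 := hzY ν₂ (Submodule.subset_span (by simp)) 20
  rw [abs_of_pos (by norm_num : (0 : ℝ) < 20)] at hz1 hz2
  -- norming functionals
  obtain ⟨Φ₁, hΦ₁, hv₁⟩ := exists_dual_vector'' ℝ (ν₁ + (20 : ℝ) • z)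
  obtain ⟨Φ₂, hΦ₂, hv₂⟩ := exists_dual_vector'' ℝ (ν₂ + (20 : ℝ) • z)
  have hv₁' : Φ₁ ν₁ + 20 * Φ₁ z = ‖ν₁ + (20 : ℝ) • z‖ := by
    rw [map_add, map_smul, smul_eq_mul] at hv₁
    exact hv₁
  have hv₂' : Φ₂ ν₂ + 20 * Φ₂ z = ‖ν₂ + (20 : ℝ) • z‖ := by
    rw [map_add, map_smul, smul_eq_mul] at hv₂
    exact hv₂
  have ha1 : Φ₁ ν₁ ≤ 20 := apply_nu_le hM Φ₁ hΦ₁ n hn p
  have ha2 : Φ₂ ν₂ ≤ 20 := apply_nu_le hM Φ₂ hΦ₂ m hm p
  obtain ⟨a, haa1, haa2, htot⟩ : ∃ a, a ≤ Φ₁ ν₁ ∧ a ≤ Φ₂ ν₂ ∧ Φ₁ ν₁ + Φ₂ ν₂ ≤ a + 20 := by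
    rcases le_total (Φ₁ ν₁) (Φ₂ ν₂) with h | h
    · exact ⟨Φ₁ ν₁, le_rfl, h, by linarith⟩
    · exact ⟨Φ₂ ν₂, h, le_rfl, by linarith⟩
  have ha20 : a ≤ 20 := haa1.trans ha1
  have hΨ := norm_add_le_of_families hM n m hn hm hns hms q hq hnm hmn hcoord p Φ₁ Φ₂ hΦ₁ hΦ₂
    haa1 haa2 ha20
  have hΨ2 : ‖Φ₁ + Φ₂‖ ≤ 2 := (norm_add_le _ _).trans (by linarith)
  have hΨz : Φ₁ z + Φ₂ z ≤ ‖Φ₁ + Φ₂‖ := by
    calc Φ₁ z + Φ₂ z = (Φ₁ + Φ₂) z := rfl
      _ ≤ ‖(Φ₁ + Φ₂) z‖ := le_abs_self _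
      _ ≤ ‖Φ₁ + Φ₂‖ * ‖z‖ := (Φ₁ + Φ₂).le_opNorm z
      _ = ‖Φ₁ + Φ₂‖ := by rw [hz, mul_one]
  rcases le_total a (389 / 20) with hcase | hcase
  · linarith
  · linarith

/-- The vector-valued Lipschitz-free space over an equilateral space with at least five points,
with values in the four-dimensional space, is not octahedral. -/
theorem not_octahedral (hM : ∀ x y : M, x ≠ y → dist x y = 1) (p : Fin 5 → M)
    (hp : Function.Injective p) (hp0 : p 0 = o) :
    ¬ HasOctahedralNorm (VectorLipFree M o XX) :=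
  not_octahedral_of_families hM n1 n2 norm_n1_le norm_n2_le sum_n1 sum_n2
    (fun k l => Q k l) abs_Q_le n1_eq n2_eq (fun G _ h1 h2 x => abs_le_of_coord G h1 h2 x) p
    (twenty_le_norm_nu hM n1 w1 w1_zero norm_w1_sub_le n1_w1 p hp hp0)
    (twenty_le_norm_nu hM n2 w2 w2_zero norm_w2_sub_le n2_w2 p hp hp0)

/-- A countably infinite set of points, to be given the equilateral metric. -/
def Pts : Type := ℕ

instance : Infinite Pts := inferInstanceAs (Infinite ℕ)

instance : Countable Pts := inferInstanceAs (Countable ℕ)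

instance : DecidableEq Pts := inferInstanceAs (DecidableEq ℕ)

/-- The equilateral metric: all nonzero distances are one. -/
instance : MetricSpace Pts where
  dist m n := if m = n then 0 else 1
  dist_self m := if_pos rfl
  dist_comm m n := by
    show (if m = n then (0 : ℝ) else 1) = if n = m then 0 else 1
    simp only [eq_comm]
  dist_triangle m n k := by
    show (if m = k then (0 : ℝ) else 1) ≤ (if m = n then 0 else 1) + if n = k then 0 else 1
    by_cases h1 : m = n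
    · subst h1; simp
    · rw [if_neg h1]
      have h2 : (0 : ℝ) ≤ if n = k then 0 else 1 := by split_ifs <;> norm_num
      have h3 : (if m = k then (0 : ℝ) else 1) ≤ 1 := by split_ifs <;> norm_num
      linarith
  eq_of_dist_eq_zero {m n} h := by
    by_contra hne
    have h' : (if m = n then (0 : ℝ) else 1) = 0 := h
    rw [if_neg hne] at h'
    exact one_ne_zero h'

theorem dist_Pts {x y : Pts} (h : x ≠ y) : dist x y = 1 := if_neg h

/-- The dimension of the space. -/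
theorem finrank_XX : Module.finrank ℝ XX = 4 := by
  have h1 : Module.finrank ℝ XX = Module.finrank ℝ (Module.Dual ℝ W) :=
    (LinearMap.toContinuousLinearMap (𝕜 := ℝ) (E := W) (F' := ℝ)).symm.finrank_eq
  rw [h1, Subspace.dual_finrank_eq]
  -- the sum functional on ℝ⁵
  set s : (Fin 5 → ℝ) →ₗ[ℝ] ℝ := ∑ k, LinearMap.proj k with hs
  have hsa : ∀ v, s v = ∑ k, v k := fun v => by simp [hs]
  have hker : Module.finrank ℝ (LinearMap.ker s) = 4 := by
    have h := LinearMap.finrank_range_add_finrank_ker s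
    have hsurj : Function.Surjective s := by
      intro c
      refine ⟨Pi.single 0 c, ?_⟩
      rw [hsa]
      simp
    have hr : Module.finrank ℝ (LinearMap.range s) = 1 := by
      rw [LinearMap.range_eq_top.mpr hsurj]
      simp
    rw [hr] at h
    simp at h
    omega
  rw [← hker]
  refine LinearEquiv.finrank_eq ?_
  refine LinearEquiv.ofBijective
    ((LinearMap.fst ℝ (Fin 5 → ℝ) (Fin 5 → ℝ) ∘ₗ W.subtype).codRestrict (LinearMap.ker s)
      (fun w => by
        rw [LinearMap.mem_ker, hsa]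
        exact w.2.1)) ⟨?_, ?_⟩
  · intro w w' h
    have h' : w.1.1 = w'.1.1 := congrArg Subtype.val h
    refine Subtype.ext (Prod.ext h' ?_)
    funext k
    rw [w.2.2 k, w'.2.2 k, h']
  · rintro ⟨v, hv⟩
    rw [LinearMap.mem_ker, hsa] at hv
    exact ⟨⟨(v, fun k => 4 / 9 * ∑ l, Q k l * v l), hv, fun k => rfl⟩, rfl⟩

/-- The concrete Lipschitz-free space is one. -/
theorem isLipschitzFree_lipFree : IsLipschitzFree M o (LipFree M o) (deltaF o) := by
  have hsum : ∀ (s : Finset M) (a : M → ℝ),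
      (∑ p ∈ s, a p • deltaF o p : LipFree M o).toDual = ∑ p ∈ s, a p • delta o p := by
    classical
    intro s a
    induction s using Finset.induction_on with
    | empty => rfl
    | insert q t hq ih =>
      rw [Finset.sum_insert hq, Finset.sum_insert hq, LipFree.toDual_add,
        LipFree.toDual_smul, ih, LipFree.toDual_deltaF]
  refine ⟨?_, ?_, fun s a => ?_⟩
  · have hc : IsClosed (((Submodule.span ℝ (Set.range (delta o))).topologicalClosure :
        Submodule ℝ (StrongDual ℝ (Lip0 M o))) : Set (StrongDual ℝ (Lip0 M o))) :=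
      Submodule.isClosed_topologicalClosure _
    exact hc.completeSpace_coe
  · intro γ
    rw [Metric.mem_closure_iff]
    intro η hη
    obtain ⟨s, a, hsa⟩ := exists_finite_approx γ hη
    refine ⟨∑ p ∈ s, a p • deltaF o p, ?_, ?_⟩
    · exact Submodule.sum_mem _ fun p _ => Submodule.smul_mem _ _ (Submodule.subset_span ⟨p, rfl⟩)
    · rw [dist_eq_norm, ← LipFree.norm_toDual, LipFree.toDual_sub, hsum]
      exact hsa
  · rw [← LipFree.norm_toDual, hsum]
    constructor
    · rintro r ⟨f, hf, hfo, rfl⟩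
      have hf' : ∀ x y, |f x - f y| ≤ 1 * dist x y := fun x y => by
        have := hf.dist_le_mul x y
        rwa [Real.dist_eq, NNReal.coe_one] at this
      set g : Lip0 M o := ⟨f, hfo, 1, zero_le_one, hf'⟩ with hg
      have hgn : ‖g‖ ≤ 1 := Lip0.norm_le zero_le_one hf'
      have h1 : (∑ p ∈ s, a p • delta o p) g = ∑ p ∈ s, a p * f p := sum_delta_apply s a g
      rw [← h1]
      calc (∑ p ∈ s, a p • delta o p) g ≤ ‖(∑ p ∈ s, a p • delta o p) g‖ := le_abs_self _
        _ ≤ ‖∑ p ∈ s, a p • delta o p‖ * ‖g‖ := ContinuousLinearMap.le_opNorm _ _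
        _ ≤ ‖∑ p ∈ s, a p • delta o p‖ * 1 := by gcongr
        _ = _ := mul_one _
    · intro B hB
      have hmem : ∀ g : Lip0 M o, ‖g‖ ≤ 1 → (∑ p ∈ s, a p • delta o p) g ≤ B := by
        intro g hg
        rw [sum_delta_apply]
        refine hB ⟨fun x => g x, ?_, Lip0.map_base g, rfl⟩
        refine LipschitzWith.of_dist_le_mul fun x y => ?_
        rw [Real.dist_eq, NNReal.coe_one]
        exact (Lip0.abs_sub_le_norm g x y).trans (by gcongr)
      have hB0 : 0 ≤ B := by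
        have := hmem 0 (by simp)
        simpa using this
      refine ContinuousLinearMap.opNorm_le_of_unit_norm hB0 fun g hg => ?_
      rw [Real.norm_eq_abs, abs_le]
      constructor
      · have := hmem (-g) (by rw [norm_neg]; exact hg.le)
        rw [map_neg] at this
        linarith
      · exact hmem g hg.le

/-- The canonical map from the algebraic tensor product to the completed projective one. -/
def toProj (E X : Type) [NormedAddCommGroup E] [NormedSpace ℝ E] [NormedAddCommGroup X]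
    [NormedSpace ℝ X] : TensorProduct ℝ E X →ₗ[ℝ] ProjTensorProduct E X where
  toFun u := ((show ProjTensor E X from u) : ProjTensorProduct E X)
  map_add' u v := UniformSpace.Completion.coe_add (show ProjTensor E X from u) v
  map_smul' c u := UniformSpace.Completion.coe_smul c (show ProjTensor E X from u)

/-- The concrete completed projective tensor product is one. -/
theorem isProjectiveTensorProduct_proj (E X : Type) [NormedAddCommGroup E] [NormedSpace ℝ E]
    [NormedAddCommGroup X] [NormedSpace ℝ X] :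
    IsProjectiveTensorProduct E X (ProjTensorProduct E X) (toProj E X) := by
  refine ⟨inferInstance, ?_, fun u => ?_⟩
  · exact UniformSpace.Completion.denseRange_coe (α := ProjTensor E X)
  · have h1 : ‖toProj E X u‖ = projNorm (show ProjTensor E X from u) :=
      UniformSpace.Completion.norm_coe (show ProjTensor E X from u)
    rw [h1]
    exact isGLB_csInf (values_nonempty (show ProjTensor E X from u)) (values_bddBelow _)

end Pool.Agent.Lib.MP_05d620_an
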