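import Pool.Agent.Lib.MP_05d620_an.Concrete

/-!
# The Lipschitz-free space of an infinite equilateral space is octahedral
-/

noncomputable section

namespace Pool.Agent.Lib.MP_05d620_an

variable {M : Type} [MetricSpace M] {o : M}

@[simp] theorem delta_apply (x : M) (f : Lip0 M o) : delta o x f = f x := rfl

theorem Lip0.norm_le {f : Lip0 M o} {K : ℝ} (hK : 0 ≤ K)
    (h : ∀ x y, |f x - f y| ≤ K * dist x y) : ‖f‖ ≤ K := Lip0.lipConst_le hK h

theorem Lip0.abs_sub_le_norm (f : Lip0 M o) (x y : M) : |f x - f y| ≤ ‖f‖ * dist x y :=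
  Lip0.abs_sub_le f x y

theorem delta_base : delta o o = 0 := by
  ext f
  exact Lip0.map_base f

theorem norm_delta_sub_le (x y : M) : ‖delta o x - delta o y‖ ≤ dist x y := by
  refine ContinuousLinearMap.opNorm_le_bound _ dist_nonneg fun f => ?_
  have h := Lip0.abs_sub_le_norm f x y
  rw [mul_comm] at h
  simpa using h

/-- The evaluation at `x` as an element of the Lipschitz-free space. -/
def deltaF (o : M) (x : M) : LipFree M o :=
  ⟨delta o x, Submodule.le_topologicalClosure _ (Submodule.subset_span ⟨x, rfl⟩)⟩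

/-- The inclusion of the Lipschitz-free space in the dual of `Lip₀(M)`. -/
def LipFree.toDual (γ : LipFree M o) : StrongDual ℝ (Lip0 M o) := γ.1

theorem LipFree.toDual_add (γ γ' : LipFree M o) : (γ + γ').toDual = γ.toDual + γ'.toDual := rfl
theorem LipFree.toDual_sub (γ γ' : LipFree M o) : (γ - γ').toDual = γ.toDual - γ'.toDual := rfl
theorem LipFree.toDual_smul (c : ℝ) (γ : LipFree M o) : (c • γ).toDual = c • γ.toDual := rfl
theorem LipFree.norm_toDual (γ : LipFree M o) : ‖γ.toDual‖ = ‖γ‖ := rfl
theorem LipFree.toDual_deltaF (x : M) : (deltaF o x).toDual = delta o x := rfl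

theorem deltaF_base : deltaF o o = 0 := Subtype.ext delta_base

theorem norm_deltaF_sub_le (x y : M) : ‖deltaF o x - deltaF o y‖ ≤ dist x y :=
  norm_delta_sub_le x y

/-- Evaluation on a finite combination. -/
theorem sum_delta_apply (s : Finset M) (c : M → ℝ) (f : Lip0 M o) :
    (∑ p ∈ s, c p • delta o p) f = ∑ p ∈ s, c p * f p := by
  simp

variable (hM : ∀ x y : M, x ≠ y → dist x y = 1)

include hM in
/-- The key inequality for finitely supported elements. -/
theorem key_finsupp (s : Finset M) (a : M → ℝ) {u v : M} (hus : u ∉ s) (hvs : v ∉ s)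
    (huo : u ≠ o) (hvo : v ≠ o) (huv : u ≠ v) (c : ℝ) :
    ‖∑ p ∈ s, a p • delta o p‖ + |c| ≤
      ‖∑ p ∈ s, a p • delta o p + c • (delta o u - delta o v)‖ := by
  classical
  set μ : StrongDual ℝ (Lip0 M o) := ∑ p ∈ s, a p • delta o p with hμ
  set B : ℝ := ‖μ + c • (delta o u - delta o v)‖ with hB
  -- the core estimate
  have core : ∀ f : Lip0 M o, ‖f‖ ≤ 1 → μ f + |c| ≤ B := by
    intro f hf
    have hdiff : ∀ x y, |f x - f y| ≤ 1 := by
      intro x y
      rcases eq_or_ne x y with rfl | hxy
      · simp
      · have h := Lip0.abs_sub_le_norm f x y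
        rw [hM x y hxy, mul_one] at h
        exact h.trans hf
    have hbdd : BddBelow (Set.range fun x => f x) := ⟨f o - 1, by
      rintro _ ⟨x, rfl⟩
      have := (abs_le.mp (hdiff x o)).1
      simp only
      linarith⟩
    set i : ℝ := sInf (Set.range fun x => f x) with hi
    have h1 : ∀ x, i ≤ f x := fun x => csInf_le hbdd ⟨x, rfl⟩
    have h2 : ∀ x, f x ≤ i + 1 := by
      intro x
      have : f x - 1 ≤ i := by
        refine le_csInf ⟨f o, o, rfl⟩ ?_
        rintro _ ⟨y, rfl⟩
        have := (abs_le.mp (hdiff x y)).2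
        simp only
        linarith
      linarith
    -- the values at u and v
    set α : ℝ := if 0 ≤ c then i + 1 else i with hα
    set β : ℝ := if 0 ≤ c then i else i + 1 with hβ
    set g0 : M → ℝ := fun x => if x = u then α else if x = v then β else f x with hg0
    have hg01 : ∀ x, i ≤ g0 x ∧ g0 x ≤ i + 1 := by
      intro x
      simp only [hg0, hα, hβ]
      split_ifs <;> constructor <;> first | linarith | exact h1 x | exact h2 x
    have hg0o : g0 o = 0 := by
      simp only [hg0]
      rw [if_neg (Ne.symm huo), if_neg (Ne.symm hvo)]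
      exact Lip0.map_base f
    have hg0lip : ∀ x y, |g0 x - g0 y| ≤ 1 * dist x y := by
      intro x y
      rcases eq_or_ne x y with rfl | hxy
      · simp
      · rw [hM x y hxy, mul_one, abs_le]
        have hx := hg01 x
        have hy := hg01 y
        constructor <;> linarith [hx.1, hx.2, hy.1, hy.2]
    set g : Lip0 M o := ⟨g0, hg0o, 1, zero_le_one, hg0lip⟩ with hg
    have hgn : ‖g‖ ≤ 1 := Lip0.norm_le zero_le_one hg0lip
    have hμg : μ g = μ f := by
      rw [hμ, sum_delta_apply, sum_delta_apply]
      refine Finset.sum_congr rfl fun p hp => ?_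
      have hpu : p ≠ u := fun h => hus (h ▸ hp)
      have hpv : p ≠ v := fun h => hvs (h ▸ hp)
      have : g p = f p := by
        show g0 p = f p
        simp only [hg0]
        rw [if_neg hpu, if_neg hpv]
      rw [this]
    have hgu : g u = α := by
      show g0 u = α
      simp [hg0]
    have hgv : g v = β := by
      show g0 v = β
      simp only [hg0]
      rw [if_neg (Ne.symm huv)]
      simp
    have hc : c * (α - β) = |c| := by
      simp only [hα, hβ]
      split_ifs with h
      · rw [abs_of_nonneg h]; ring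
      · rw [abs_of_neg (not_le.mp h)]; ring
    have hval : (μ + c • (delta o u - delta o v)) g = μ f + |c| := by
      rw [add_apply, smul_apply,
        sub_apply, delta_apply, delta_apply, hμg, hgu, hgv, smul_eq_mul, hc]
    calc μ f + |c| = (μ + c • (delta o u - delta o v)) g := hval.symm
      _ ≤ ‖(μ + c • (delta o u - delta o v)) g‖ := le_abs_self _
      _ ≤ ‖μ + c • (delta o u - delta o v)‖ * ‖g‖ := ContinuousLinearMap.le_opNorm _ _
      _ ≤ ‖μ + c • (delta o u - delta o v)‖ * 1 := by gcongr
      _ = B := by rw [mul_one]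
  have h0 : |c| ≤ B := by
    have := core 0 (by simp)
    simpa using this
  have : ‖μ‖ ≤ B - |c| := by
    refine ContinuousLinearMap.opNorm_le_of_unit_norm (by linarith) fun f hf => ?_
    rw [Real.norm_eq_abs]
    rcases le_total 0 (μ f) with h | h
    · rw [abs_of_nonneg h]
      have := core f hf.le
      linarith
    · rw [abs_of_nonpos h]
      have := core (-f) (by rw [norm_neg]; exact hf.le)
      rw [map_neg] at this
      linarith
  linarith

/-- Elements of the Lipschitz-free space are approximated by finite combinations. -/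
theorem exists_finite_approx (γ : LipFree M o) {η : ℝ} (hη : 0 < η) :
    ∃ (s : Finset M) (a : M → ℝ),
      ‖γ.toDual - ∑ p ∈ s, a p • delta o p‖ < η := by
  have hγ : γ.toDual ∈
      closure ((Submodule.span ℝ (Set.range (delta o)) : Set (StrongDual ℝ (Lip0 M o)))) := by
    have := γ.2
    rwa [← SetLike.mem_coe, Submodule.topologicalClosure_coe] at this
  obtain ⟨μ, hμ, hd⟩ := Metric.mem_closure_iff.mp hγ η hη
  rw [SetLike.mem_coe, Finsupp.mem_span_range_iff_exists_finsupp] at hμ
  obtain ⟨c, rfl⟩ := hμ
  refine ⟨c.support, c, ?_⟩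
  rw [← dist_eq_norm]
  exact hd

include hM in
/-- The Lipschitz-free space of an infinite equilateral space is octahedral. -/
theorem octahedral_lipFree [Infinite M] : HasOctahedralNorm (LipFree M o) := by
  classical
  intro Y hY ε hε
  set η : ℝ := ε / 4 with hη
  have hη0 : 0 < η := by positivity
  -- a finite net of the unit ball of Y
  have : ProperSpace Y := FiniteDimensional.proper ℝ Y
  have hcomp : IsCompact (Metric.closedBall (0 : Y) 1) := isCompact_closedBall _ _
  obtain ⟨t, -, htf, ht⟩ := hcomp.finite_cover_balls hη0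
  choose S A hSA using fun y : Y => exists_finite_approx (y : LipFree M o) hη0
  obtain ⟨N, hN⟩ : ∃ N : Finset M, ∀ y ∈ t, S y ⊆ N := by
    refine ⟨htf.toFinset.biUnion S, fun y hy => ?_⟩
    exact Finset.subset_biUnion_of_mem S (htf.mem_toFinset.mpr hy)
  -- two new points
  obtain ⟨u, hu⟩ := Infinite.exists_notMem_finset (insert o N)
  obtain ⟨v, hv⟩ := Infinite.exists_notMem_finset (insert u (insert o N))
  have huo : u ≠ o := fun h => hu (by rw [h]; exact Finset.mem_insert_self _ _)
  have huN : u ∉ N := fun h => hu (Finset.mem_insert_of_mem h)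
  have hvu : v ≠ u := fun h => hv (by rw [h]; exact Finset.mem_insert_self _ _)
  have hvo : v ≠ o := fun h => hv (by
    rw [h]; exact Finset.mem_insert_of_mem (Finset.mem_insert_self _ _))
  have hvN : v ∉ N := fun h => hv (Finset.mem_insert_of_mem (Finset.mem_insert_of_mem h))
  set z : LipFree M o := deltaF o u - deltaF o v with hz
  have hzco : z.toDual = delta o u - delta o v := rfl
  have hz1 : ‖z‖ = 1 := by
    refine le_antisymm ?_ ?_
    · have := norm_deltaF_sub_le (o := o) u v
      rwa [hM u v hvu.symm] at this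
    · have := key_finsupp hM (o := o) ∅ (fun _ => 0) (Finset.notMem_empty u)
        (Finset.notMem_empty v) huo hvo hvu.symm 1
      simp only [Finset.sum_empty, norm_zero, abs_one, zero_add, one_smul] at this
      exact this
  have hball : ∀ y ∈ Y, ‖y‖ ≤ 1 → ∀ c : ℝ, ‖y‖ + |c| - 4 * η ≤ ‖y + c • z‖ := by
    intro y hy hy1 c
    have hmem : (⟨y, hy⟩ : Y) ∈ Metric.closedBall (0 : Y) 1 := by
      rw [mem_closedBall_zero_iff]; exact hy1
    obtain ⟨y', hy't, hy'⟩ := Set.mem_iUnion₂.mp (ht hmem)
    set μ : StrongDual ℝ (Lip0 M o) := ∑ p ∈ S y', A y' p • delta o p with hμ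
    have hSN := hN y' hy't
    have h1 := key_finsupp hM (o := o) (S y') (A y') (fun h => huN (hSN h))
      (fun h => hvN (hSN h)) huo hvo hvu.symm c
    have h2 : ‖(y' : LipFree M o).toDual - μ‖ < η := hSA y'
    have h3 : ‖y - (y' : LipFree M o)‖ < η := by
      have : dist (⟨y, hy⟩ : Y) y' < η := hy'
      rwa [dist_eq_norm] at this
    have h4 : ‖y.toDual - μ‖ ≤ 2 * η := by
      have e : y.toDual - μ = (y - (y' : LipFree M o)).toDual + ((y' : LipFree M o).toDual - μ) := by
        rw [LipFree.toDual_sub]; abel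
      rw [e]
      refine (norm_add_le _ _).trans ?_
      rw [LipFree.norm_toDual]
      linarith
    have h5 : ‖μ + c • (delta o u - delta o v)‖ ≤ ‖y + c • z‖ + 2 * η := by
      have e : μ + c • (delta o u - delta o v) = (y + c • z).toDual - (y.toDual - μ) := by
        rw [LipFree.toDual_add, LipFree.toDual_smul, hzco]; abel
      rw [e]
      refine (norm_sub_le _ _).trans ?_
      rw [LipFree.norm_toDual]
      linarith
    have h6 : ‖y‖ ≤ ‖μ‖ + 2 * η := by
      have e : y.toDual = μ + (y.toDual - μ) := by abel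
      rw [← LipFree.norm_toDual, e]
      refine (norm_add_le _ _).trans ?_
      linarith
    linarith
  refine ⟨z, hz1, fun y hy c => ?_⟩
  rcases (add_nonneg (norm_nonneg y) (abs_nonneg c)).eq_or_lt with h | h
  · rw [← h, mul_zero]; exact norm_nonneg _
  · set r : ℝ := ‖y‖ + |c| with hr
    have hb := hball (r⁻¹ • y) (Y.smul_mem _ hy) (by
      rw [norm_smul, norm_inv, Real.norm_eq_abs, abs_of_pos h, ← div_eq_inv_mul,
        div_le_one h]
      linarith [abs_nonneg c]) (r⁻¹ * c)
    have e : r⁻¹ • y + (r⁻¹ * c) • z = r⁻¹ • (y + c • z) := by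
      rw [smul_add, smul_smul]
    rw [e, norm_smul, norm_smul, norm_inv, Real.norm_eq_abs, abs_of_pos h, abs_mul, abs_inv,
      abs_of_pos h, ← mul_add, ← hr, inv_mul_cancel₀ h.ne', ← div_eq_inv_mul,
      le_div_iff₀ h] at hb
    have : (1 : ℝ) - 4 * η = 1 - ε := by rw [hη]; ring
    rw [this] at hb
    exact hb

end Pool.Agent.Lib.MP_05d620_an
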