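import Pool.Agent.Lib.MP_05d620_an.Tensor

/-!
# The four-dimensional space
-/

noncomputable section

namespace Pool.Agent.Lib.MP_05d620_an

/-- The Paley-type symmetric matrix of order five: quadratic residue pattern. -/
def Q : Matrix (Fin 5) (Fin 5) ℝ :=
  !![0, 1, -1, -1, 1;
     1, 0, 1, -1, -1;
     -1, 1, 0, 1, -1;
     -1, -1, 1, 0, 1;
     1, -1, -1, 1, 0]

theorem abs_Q_le (k l : Fin 5) : |Q k l| ≤ 1 := by
  fin_cases k <;> fin_cases l <;> simp [Q]

/-- The predual-type space: a copy of the sum-zero hyperplane of `ℝ⁵`, embedded in `ℝ⁵ × ℝ⁵`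
with the supremum norm by `v ↦ (v, (4/9) Q v)`. -/
def W : Submodule ℝ ((Fin 5 → ℝ) × (Fin 5 → ℝ)) where
  carrier := {p | (∑ k, p.1 k = 0) ∧ ∀ k, p.2 k = 4 / 9 * ∑ l, Q k l * p.1 l}
  add_mem' := by
    rintro p q ⟨hp, hp'⟩ ⟨hq, hq'⟩
    refine ⟨?_, fun k => ?_⟩
    · simp only [Prod.fst_add, Pi.add_apply, Finset.sum_add_distrib, hp, hq, add_zero]
    · simp only [Prod.fst_add, Prod.snd_add, Pi.add_apply, hp' k, hq' k, mul_add,
        Finset.sum_add_distrib]
  zero_mem' := by simp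
  smul_mem' := by
    rintro c p ⟨hp, hp'⟩
    refine ⟨?_, fun k => ?_⟩
    · simp only [Prod.smul_fst, Pi.smul_apply, smul_eq_mul, ← Finset.mul_sum, hp, mul_zero]
    · simp only [Prod.smul_fst, Prod.smul_snd, Pi.smul_apply, smul_eq_mul, hp' k]
      rw [Finset.mul_sum, Finset.mul_sum, Finset.mul_sum]
      refine Finset.sum_congr rfl fun l _ => by ring

/-- The four-dimensional Banach space of the counterexample. -/
abbrev XX : Type := StrongDual ℝ W

/-- The first family of coordinate functionals. -/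
def n1 (k : Fin 5) : XX :=
  ((ContinuousLinearMap.proj k : (Fin 5 → ℝ) →L[ℝ] ℝ).comp
    (ContinuousLinearMap.fst ℝ (Fin 5 → ℝ) (Fin 5 → ℝ))).comp W.subtypeL

/-- The second family of coordinate functionals. -/
def n2 (k : Fin 5) : XX :=
  ((ContinuousLinearMap.proj k : (Fin 5 → ℝ) →L[ℝ] ℝ).comp
    (ContinuousLinearMap.snd ℝ (Fin 5 → ℝ) (Fin 5 → ℝ))).comp W.subtypeL

theorem n1_apply (k : Fin 5) (w : W) : n1 k w = w.1.1 k := rfl
theorem n2_apply (k : Fin 5) (w : W) : n2 k w = w.1.2 k := rfl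

theorem norm_n1_le (k : Fin 5) : ‖n1 k‖ ≤ 1 := by
  refine ContinuousLinearMap.opNorm_le_bound _ zero_le_one fun w => ?_
  rw [n1_apply, one_mul]
  calc ‖w.1.1 k‖ ≤ ‖w.1.1‖ := norm_le_pi_norm _ k
    _ ≤ ‖w.1‖ := norm_fst_le _
    _ = ‖w‖ := rfl

theorem norm_n2_le (k : Fin 5) : ‖n2 k‖ ≤ 1 := by
  refine ContinuousLinearMap.opNorm_le_bound _ zero_le_one fun w => ?_
  rw [n2_apply, one_mul]
  calc ‖w.1.2 k‖ ≤ ‖w.1.2‖ := norm_le_pi_norm _ k
    _ ≤ ‖w.1‖ := norm_snd_le _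
    _ = ‖w‖ := rfl

theorem sum_n1 : ∑ k, n1 k = 0 := by
  ext w
  have := w.2.1
  simpa [n1_apply] using this

theorem n2_eq (k : Fin 5) : n2 k = (4 / 9 : ℝ) • ∑ l, Q k l • n1 l := by
  ext w
  have := w.2.2 k
  simpa [n1_apply, n2_apply] using this

theorem sum_n2 : ∑ k, n2 k = 0 := by
  ext w
  have h1 : ∑ k, n2 k w = ∑ k, (4 / 9 : ℝ) * ∑ l, Q k l * w.1.1 l :=
    Finset.sum_congr rfl fun k _ => w.2.2 k
  have h2 : ∑ k, (4 / 9 : ℝ) * ∑ l, Q k l * w.1.1 l = 0 := by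
    simp [Fin.sum_univ_five, Q]
    ring
  simpa using h1.trans h2

theorem n1_eq (k : Fin 5) : n1 k = (9 / 20 : ℝ) • ∑ l, Q k l • n2 l := by
  ext w
  have h0 : w.1.1 0 + w.1.1 1 + w.1.1 2 + w.1.1 3 + w.1.1 4 = 0 := by
    have := w.2.1
    rwa [Fin.sum_univ_five] at this
  have h1 : ((9 / 20 : ℝ) • ∑ l, Q k l • n2 l) w =
      9 / 20 * ∑ l, Q k l * (4 / 9 * ∑ m, Q l m * w.1.1 m) := by
    simp only [smul_apply, sum_apply, smul_eq_mul]
    congr 1
    refine Finset.sum_congr rfl fun l _ => ?_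
    congr 1
    exact w.2.2 l
  rw [h1, n1_apply]
  fin_cases k <;> simp [Fin.sum_univ_five, Q] <;> linarith

/-- Every `x` is a combination of the coordinate functionals with coefficients of total absolute
value at most the norm of `x`. -/
theorem exists_repr (x : XX) : ∃ c d : Fin 5 → ℝ,
    x = (∑ k, c k • n1 k + ∑ k, d k • n2 k) ∧ ∑ k, |c k| + ∑ k, |d k| ≤ ‖x‖ := by
  classical
  obtain ⟨g, hg, hgn⟩ := exists_extension_norm_eq W x
  refine ⟨fun k => g (Pi.single k 1, 0), fun k => g (0, Pi.single k 1), ?_, ?_⟩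
  · ext w
    have hw : (w : (Fin 5 → ℝ) × (Fin 5 → ℝ)) =
        ∑ k, w.1.1 k • ((Pi.single k 1, 0) : (Fin 5 → ℝ) × (Fin 5 → ℝ)) +
        ∑ k, w.1.2 k • ((0, Pi.single k 1) : (Fin 5 → ℝ) × (Fin 5 → ℝ)) := by
      ext j
      · simp [Prod.fst_sum, Finset.sum_apply, Pi.single_apply]
      · simp [Prod.snd_sum, Finset.sum_apply, Pi.single_apply]
    rw [← hg w]
    conv_lhs => rw [hw]
    rw [map_add, map_sum, map_sum]
    simp only [map_smul, smul_eq_mul, add_apply, sum_apply, smul_apply, n1_apply, n2_apply]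
    congr 1 <;> exact Finset.sum_congr rfl fun k _ => mul_comm _ _
  · -- evaluate at the vector of signs
    set c : Fin 5 → ℝ := fun k => g (Pi.single k 1, 0) with hc
    set d : Fin 5 → ℝ := fun k => g (0, Pi.single k 1) with hd
    set s : (Fin 5 → ℝ) × (Fin 5 → ℝ) :=
      (fun k => SignType.sign (c k), fun k => SignType.sign (d k)) with hs
    have hsn : ‖s‖ ≤ 1 := by
      rw [Prod.norm_def]
      refine max_le ?_ ?_
      · refine (pi_norm_le_iff_of_nonneg zero_le_one).mpr fun k => ?_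
        simp only [hs]
        rcases SignType.trichotomy (SignType.sign (c k)) with h | h | h <;> rw [h] <;> simp
      · refine (pi_norm_le_iff_of_nonneg zero_le_one).mpr fun k => ?_
        simp only [hs]
        rcases SignType.trichotomy (SignType.sign (d k)) with h | h | h <;> rw [h] <;> simp
    have hsv : s = ∑ k, s.1 k • ((Pi.single k 1, 0) : (Fin 5 → ℝ) × (Fin 5 → ℝ)) +
        ∑ k, s.2 k • ((0, Pi.single k 1) : (Fin 5 → ℝ) × (Fin 5 → ℝ)) := by
      ext j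
      · simp [Prod.fst_sum, Finset.sum_apply, Pi.single_apply]
      · simp [Prod.snd_sum, Finset.sum_apply, Pi.single_apply]
    have hgs : g s = ∑ k, |c k| + ∑ k, |d k| := by
      rw [hsv, map_add, map_sum, map_sum]
      simp only [map_smul, smul_eq_mul]
      congr 1
      · exact Finset.sum_congr rfl fun k _ => sign_mul_self (c k)
      · exact Finset.sum_congr rfl fun k _ => sign_mul_self (d k)
    rw [← hgs, ← hgn]
    calc g s ≤ ‖g s‖ := le_abs_self _
      _ ≤ ‖g‖ * ‖s‖ := g.le_opNorm s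
      _ ≤ ‖g‖ * 1 := by gcongr
      _ = ‖g‖ := mul_one _

/-- A linear functional on `XX` is bounded by its values on the coordinate functionals. -/
theorem abs_le_of_coord (G : XX →ₗ[ℝ] ℝ) {K : ℝ}
    (h1 : ∀ k, |G (n1 k)| ≤ K) (h2 : ∀ k, |G (n2 k)| ≤ K) (x : XX) : |G x| ≤ K * ‖x‖ := by
  obtain ⟨c, d, hx, hcd⟩ := exists_repr x
  have hK : 0 ≤ K := (abs_nonneg _).trans (h1 0)
  have e : G x = ∑ k, c k * G (n1 k) + ∑ k, d k * G (n2 k) := by
    conv_lhs => rw [hx]
    rw [map_add, map_sum, map_sum]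
    simp only [map_smul, smul_eq_mul]
  rw [e]
  calc |∑ k, c k * G (n1 k) + ∑ k, d k * G (n2 k)|
      ≤ |∑ k, c k * G (n1 k)| + |∑ k, d k * G (n2 k)| := abs_add_le _ _
    _ ≤ ∑ k, |c k * G (n1 k)| + ∑ k, |d k * G (n2 k)| :=
        add_le_add (Finset.abs_sum_le_sum_abs _ _) (Finset.abs_sum_le_sum_abs _ _)
    _ ≤ ∑ k, |c k| * K + ∑ k, |d k| * K := by
        refine add_le_add (Finset.sum_le_sum fun k _ => ?_) (Finset.sum_le_sum fun k _ => ?_)
        · rw [abs_mul]; exact mul_le_mul_of_nonneg_left (h1 k) (abs_nonneg _)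
        · rw [abs_mul]; exact mul_le_mul_of_nonneg_left (h2 k) (abs_nonneg _)
    _ = K * (∑ k, |c k| + ∑ k, |d k|) := by
        rw [← Finset.sum_mul, ← Finset.sum_mul]; ring
    _ ≤ K * ‖x‖ := mul_le_mul_of_nonneg_left hcd hK

/-- Membership of the first simplex vectors. -/
def w1 (j : Fin 5) : W :=
  ⟨(Pi.single 0 1 - Pi.single j 1, fun k => 4 / 9 * (Q k 0 - Q k j)), by
    constructor
    · fin_cases j <;> simp
    · intro k
      fin_cases j <;> fin_cases k <;> simp [Fin.sum_univ_five, Q] <;> norm_num⟩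

/-- Membership of the second simplex vectors. -/
def w2 (j : Fin 5) : W :=
  ⟨(fun k => 9 / 20 * (Q k 0 - Q k j), Pi.single 0 1 - Pi.single j 1), by
    constructor
    · fin_cases j <;> simp [Fin.sum_univ_five, Q] <;> norm_num
    · intro k
      fin_cases j <;> fin_cases k <;> simp [Fin.sum_univ_five, Q] <;> norm_num⟩

theorem w1_zero : w1 0 = 0 := by
  ext k <;> simp [w1]

theorem w2_zero : w2 0 = 0 := by
  ext k <;> simp [w2]

theorem norm_w1_sub_le (i j : Fin 5) : ‖w1 i - w1 j‖ ≤ 1 := by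
  show ‖((w1 i - w1 j : W) : (Fin 5 → ℝ) × (Fin 5 → ℝ))‖ ≤ 1
  rw [Prod.norm_def]
  refine max_le ?_ ?_ <;> refine (pi_norm_le_iff_of_nonneg zero_le_one).mpr fun k => ?_
  · fin_cases i <;> fin_cases j <;> fin_cases k <;> simp [w1]
  · fin_cases i <;> fin_cases j <;> fin_cases k <;> simp [w1, Q] <;> norm_num [abs_le]

theorem norm_w2_sub_le (i j : Fin 5) : ‖w2 i - w2 j‖ ≤ 1 := by
  show ‖((w2 i - w2 j : W) : (Fin 5 → ℝ) × (Fin 5 → ℝ))‖ ≤ 1
  rw [Prod.norm_def]
  refine max_le ?_ ?_ <;> refine (pi_norm_le_iff_of_nonneg zero_le_one).mpr fun k => ?_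
  · fin_cases i <;> fin_cases j <;> fin_cases k <;> simp [w2, Q] <;> norm_num [abs_le]
  · fin_cases i <;> fin_cases j <;> fin_cases k <;> simp [w2]

theorem n1_w1 (i j : Fin 5) : n1 i (w1 j) - n1 i (w1 i) = if i = j then 0 else 1 := by
  fin_cases i <;> fin_cases j <;> simp [n1_apply, w1]

theorem n2_w2 (i j : Fin 5) : n2 i (w2 j) - n2 i (w2 i) = if i = j then 0 else 1 := by
  fin_cases i <;> fin_cases j <;> simp [n2_apply, w2]

end Pool.Agent.Lib.MP_05d620_an
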