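import Pool.Agent.Lib.MP_05d620_an.Scalar

/-!
# Functionals on vector-valued Lipschitz-free spaces
-/

noncomputable section

namespace Pool.Agent.Lib.MP_05d620_an

open scoped TensorProduct

namespace ProjTensor

variable {E X : Type*} [NormedAddCommGroup E] [NormedSpace ℝ E]
    [NormedAddCommGroup X] [NormedSpace ℝ X]

theorem tmul_add_left (a b : E) (x : X) : tmul (a + b) x = tmul a x + tmul b x :=
  TensorProduct.add_tmul a b x
theorem tmul_sub_left (a b : E) (x : X) : tmul (a - b) x = tmul a x - tmul b x :=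
  TensorProduct.sub_tmul a b x
theorem tmul_add_right (a : E) (x y : X) : tmul a (x + y) = tmul a x + tmul a y :=
  TensorProduct.tmul_add a x y
theorem tmul_smul_left (c : ℝ) (a : E) (x : X) : tmul (c • a) x = c • tmul a x :=
  (TensorProduct.smul_tmul' c a x).symm
theorem tmul_smul_right (c : ℝ) (a : E) (x : X) : tmul a (c • x) = c • tmul a x :=
  TensorProduct.tmul_smul c a x
theorem tmul_zero_left (x : X) : tmul (0 : E) x = 0 := TensorProduct.zero_tmul E x
theorem tmul_zero_right (a : E) : tmul a (0 : X) = 0 := TensorProduct.tmul_zero X a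
theorem tmul_sum_right {ι : Type*} (s : Finset ι) (a : E) (x : ι → X) :
    tmul a (∑ i ∈ s, x i) = ∑ i ∈ s, tmul a (x i) := TensorProduct.tmul_sum a s x

theorem norm_tmul_le (a : E) (x : X) : ‖tmul a x‖ ≤ ‖a‖ * ‖x‖ :=
  projNorm_le (tmul_mem_values a x)

/-- The elementary tensor in the completed tensor product. -/
def ct (a : E) (x : X) : ProjTensorProduct E X := ((tmul a x : ProjTensor E X) :)

theorem ct_def (a : E) (x : X) : ct a x = ((tmul a x : ProjTensor E X) : ProjTensorProduct E X) := rfl

theorem norm_ct_le (a : E) (x : X) : ‖ct a x‖ ≤ ‖a‖ * ‖x‖ := by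
  rw [ct_def, UniformSpace.Completion.norm_coe]
  exact norm_tmul_le a x

/-- The bilinear map `(a, x) ↦ a ⊗ x` in each variable. -/
theorem ct_add_left (a b : E) (x : X) : ct (a + b) x = ct a x + ct b x := by
  simp only [ct_def, tmul_add_left, UniformSpace.Completion.coe_add]
theorem ct_sub_left (a b : E) (x : X) : ct (a - b) x = ct a x - ct b x := by
  simp only [ct_def, tmul_sub_left, UniformSpace.Completion.coe_sub]
theorem ct_add_right (a : E) (x y : X) : ct a (x + y) = ct a x + ct a y := by
  simp only [ct_def, tmul_add_right, UniformSpace.Completion.coe_add]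
theorem ct_smul_left (c : ℝ) (a : E) (x : X) : ct (c • a) x = c • ct a x := by
  simp only [ct_def, tmul_smul_left, UniformSpace.Completion.coe_smul]
theorem ct_smul_right (c : ℝ) (a : E) (x : X) : ct a (c • x) = c • ct a x := by
  simp only [ct_def, tmul_smul_right, UniformSpace.Completion.coe_smul]
theorem ct_zero_left (x : X) : ct (0 : E) x = 0 := by
  rw [ct_def, tmul_zero_left, UniformSpace.Completion.coe_zero]
theorem ct_zero_right (a : E) : ct a (0 : X) = 0 := by
  rw [ct_def, tmul_zero_right, UniformSpace.Completion.coe_zero]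

/-- For fixed `a` the map `x ↦ a ⊗ x` is linear. -/
def ctRight (a : E) : X →ₗ[ℝ] ProjTensorProduct E X where
  toFun x := ct a x
  map_add' := ct_add_right a
  map_smul' c x := ct_smul_right c a x

/-- For fixed `x` the map `a ↦ a ⊗ x` is linear and continuous. -/
def ctLeft (x : X) : E →L[ℝ] ProjTensorProduct E X :=
  LinearMap.mkContinuous
    { toFun := fun a => ct a x
      map_add' := fun a b => ct_add_left a b x
      map_smul' := fun c a => ct_smul_left c a x } ‖x‖
    (fun a => by rw [mul_comm]; exact norm_ct_le a x)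

theorem ctLeft_apply (x : X) (a : E) : ctLeft x a = ct a x := rfl

/-- A functional bounded by `L` on elementary tensors has norm at most `L`. -/
theorem norm_functional_le (Φ : StrongDual ℝ (ProjTensorProduct E X)) {L : ℝ} (hL : 0 ≤ L)
    (h : ∀ a x, |Φ (ct a x)| ≤ L * (‖a‖ * ‖x‖)) : ‖Φ‖ ≤ L := by
  refine ContinuousLinearMap.opNorm_le_bound _ hL fun z => ?_
  refine UniformSpace.Completion.induction_on z ?_ ?_
  · exact isClosed_le (by fun_prop) (by fun_prop)
  · intro u
    rw [UniformSpace.Completion.norm_coe, Real.norm_eq_abs]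
    have key : ∀ r ∈ values u, |Φ (u : ProjTensorProduct E X)| ≤ L * r := by
      rintro r ⟨n, a, x, rfl, rfl⟩
      have e : ((∑ i, tmul (a i) (x i) : ProjTensor E X) : ProjTensorProduct E X) =
          ∑ i, ct (a i) (x i) := by
        have := map_sum (UniformSpace.Completion.toComplₗᵢ (𝕜 := ℝ) (E := ProjTensor E X))
          (fun i => tmul (a i) (x i)) Finset.univ
        exact this
      rw [e, map_sum, Finset.mul_sum]
      exact (Finset.abs_sum_le_sum_abs _ _).trans (Finset.sum_le_sum fun i _ => h _ _)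
    rcases hL.eq_or_lt with rfl | hL'
    · obtain ⟨r, hr⟩ := values_nonempty u
      have := key r hr
      rw [zero_mul] at this ⊢
      exact this
    · rw [← div_le_iff₀' hL']
      refine le_csInf (values_nonempty u) fun r hr => ?_
      rw [div_le_iff₀' hL']
      exact key r hr

end ProjTensor

open ProjTensor

variable {M : Type} [MetricSpace M] {o : M}
variable {X : Type} [NormedAddCommGroup X] [NormedSpace ℝ X]

/-- A continuous linear functional on the Lipschitz-free space that is represented on the point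
evaluations by a Lipschitz function `f` is evaluation at `f`. -/
theorem eq_apply_of_forall (A : StrongDual ℝ (LipFree M o)) (f : Lip0 M o)
    (h : ∀ p, A (deltaF o p) = f p) (γ : LipFree M o) : A γ = γ.toDual f := by
  have hbound : ∀ η > 0, |A γ - γ.toDual f| ≤ (‖A‖ + ‖f‖) * η := by
    intro η hη
    obtain ⟨s, a, hsa⟩ := exists_finite_approx γ hη
    set μ : LipFree M o := ∑ p ∈ s, a p • deltaF o p with hμ
    have hμd : μ.toDual = ∑ p ∈ s, a p • delta o p := by
      have : ∀ t : Finset M, (∑ p ∈ t, a p • deltaF o p : LipFree M o).toDual =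
          ∑ p ∈ t, a p • delta o p := by
        classical
        intro t
        induction t using Finset.induction_on with
        | empty => rfl
        | insert q t hq ih =>
          rw [Finset.sum_insert hq, Finset.sum_insert hq, LipFree.toDual_add,
            LipFree.toDual_smul, ih, LipFree.toDual_deltaF]
      exact this s
    have hAμ : A μ = μ.toDual f := by
      rw [hμd, sum_delta_apply, hμ, map_sum]
      refine Finset.sum_congr rfl fun p _ => ?_
      rw [map_smul, h p, smul_eq_mul]
    have hn : ‖γ - μ‖ < η := by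
      rw [← LipFree.norm_toDual, LipFree.toDual_sub, hμd]
      exact hsa
    have e : A γ - γ.toDual f = A (γ - μ) - (γ - μ).toDual f := by
      rw [map_sub, LipFree.toDual_sub, hAμ]
      show _ = A γ - _ - (γ.toDual f - μ.toDual f)
      ring
    rw [e]
    have h1 : |A (γ - μ)| ≤ ‖A‖ * η :=
      (A.le_opNorm _).trans (by gcongr)
    have h2 : |(γ - μ).toDual f| ≤ ‖f‖ * η := by
      have := (γ - μ).toDual.le_opNorm f
      rw [LipFree.norm_toDual, mul_comm] at this
      exact this.trans (by gcongr)
    calc |A (γ - μ) - (γ - μ).toDual f| ≤ |A (γ - μ)| + |(γ - μ).toDual f| := abs_sub _ _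
      _ ≤ ‖A‖ * η + ‖f‖ * η := add_le_add h1 h2
      _ = (‖A‖ + ‖f‖) * η := by ring
  have : |A γ - γ.toDual f| ≤ 0 := by
    refine le_of_forall_pos_le_add fun ε hε => ?_
    rw [zero_add]
    have hpos : 0 < ‖A‖ + ‖f‖ + 1 := by positivity
    refine (hbound (ε / (‖A‖ + ‖f‖ + 1)) (by positivity)).trans ?_
    rw [mul_div_assoc', div_le_iff₀ hpos]
    nlinarith [norm_nonneg A, norm_nonneg f]
  exact sub_eq_zero.mp (abs_nonpos_iff.mp this)

/-- The norm of a functional on the vector-valued Lipschitz-free space is controlled by its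
values on elementary molecules. -/
theorem norm_functional_le_of_lip (Φ : StrongDual ℝ (VectorLipFree M o X)) {L : ℝ} (hL : 0 ≤ L)
    (h : ∀ (p q : M) (x : X), |Φ (ct (deltaF o p - deltaF o q) x)| ≤ L * dist p q * ‖x‖) :
    ‖Φ‖ ≤ L := by
  refine norm_functional_le Φ hL fun γ x => ?_
  set f0 : M → ℝ := fun p => Φ (ct (deltaF o p) x) with hf0
  have hf0o : f0 o = 0 := by
    simp only [hf0]
    rw [deltaF_base, ct_zero_left, map_zero]
  have hf0l : ∀ p q, |f0 p - f0 q| ≤ (L * ‖x‖) * dist p q := by
    intro p q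
    have := h p q x
    rw [ct_sub_left, map_sub] at this
    calc |f0 p - f0 q| ≤ L * dist p q * ‖x‖ := this
      _ = (L * ‖x‖) * dist p q := by ring
  set f : Lip0 M o := ⟨f0, hf0o, L * ‖x‖, by positivity, hf0l⟩ with hf
  have hfn : ‖f‖ ≤ L * ‖x‖ := Lip0.norm_le (by positivity) hf0l
  have hA : (Φ.comp (ctLeft x)) γ = γ.toDual f :=
    eq_apply_of_forall (Φ.comp (ctLeft x)) f (fun p => rfl) γ
  have hA' : Φ (ct γ x) = γ.toDual f := hA
  rw [hA']
  refine (γ.toDual.le_opNorm f).trans ?_
  rw [LipFree.norm_toDual]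
  calc ‖γ‖ * ‖f‖ ≤ ‖γ‖ * (L * ‖x‖) := by gcongr
    _ = L * (‖γ‖ * ‖x‖) := by ring

/-- A 1-Lipschitz map into the algebraic dual pairs with the tensor product: lower bound for the
projective norm of `∑ a_i ⊗ x_i`. Here `T : X → Lip₀(M)` is linear of norm at most one. -/
theorem le_norm_of_linear (T : X →ₗ[ℝ] Lip0 M o) (hT : ∀ x, ‖T x‖ ≤ ‖x‖)
    {ι : Type*} (s : Finset ι) (a : ι → LipFree M o) (x : ι → X) :
    ∑ i ∈ s, (a i).toDual (T (x i)) ≤ ‖∑ i ∈ s, ct (a i) (x i)‖ := by
  set b : LipFree M o →ₗ[ℝ] X →ₗ[ℝ] ℝ := LinearMap.mk₂ ℝ (fun γ x => γ.toDual (T x))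
    (fun γ γ' x => rfl) (fun c γ x => rfl)
    (fun γ x y => by rw [map_add, map_add]) (fun c γ x => by rw [map_smul, map_smul]) with hb
  set φ : ProjTensor (LipFree M o) X →ₗ[ℝ] ℝ := TensorProduct.lift b with hφ
  have hφt : ∀ γ x, φ (tmul γ x) = γ.toDual (T x) := fun γ x => TensorProduct.lift.tmul γ x
  have hφn : ∀ u, φ u ≤ ‖u‖ := by
    intro u
    refine le_csInf (values_nonempty u) ?_
    rintro r ⟨n, a, x, rfl, rfl⟩
    rw [map_sum]
    refine Finset.sum_le_sum fun i _ => ?_
    rw [hφt]
    refine (le_abs_self _).trans (((a i).toDual.le_opNorm (T (x i))).trans ?_)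
    rw [LipFree.norm_toDual]
    have := hT (x i)
    gcongr
  have e : ∑ i ∈ s, ct (a i) (x i) =
      ((∑ i ∈ s, tmul (a i) (x i) : ProjTensor (LipFree M o) X) : VectorLipFree M o X) := by
    have := map_sum (UniformSpace.Completion.toComplₗᵢ (𝕜 := ℝ) (E := ProjTensor (LipFree M o) X))
      (fun i => tmul (a i) (x i)) s
    exact this.symm
  rw [e, UniformSpace.Completion.norm_coe]
  refine le_trans (le_of_eq ?_) (hφn _)
  rw [map_sum]
  exact Finset.sum_congr rfl fun i _ => (hφt _ _).symm

end Pool.Agent.Lib.MP_05d620_an
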